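import Pool.Agent.UQ.Geo

/-!
# UQ: comparison of the language of the final statement with the one of the proofs, homology
-/

set_option autoImplicit false

open CategoryTheory AlgebraicGeometry Polynomial Limits

namespace UQ

open Pool.Agent.Lib_helper55.Beil (Var ClosedIn OpenIn Complementary Homology Maps)
open CUB (PrMor VIso)

universe v

variable {k : Type} [Field k] {E : Type} [Field E]

lemma mo_ext {X Y : Var k} {f g : Mo X Y} (h : f.g = g.g) : f = g := by
  cases f
  cases g
  cases h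
  rfl

/-! ## Cycles -/

lemma rat_eq (i : ℕ) (X : Var k) : rat E i X = Pool.Agent.Lib_helper55.Beil.ratZero E i X := by
  unfold rat Pool.Agent.Lib_helper55.Beil.ratZero
  apply congrArg (Submodule.span E)
  ext c
  constructor
  · rintro ⟨W, hW, a, φ, h1, h2, h3, h4⟩
    exact ⟨W, hW, toCl a h1, φ, h2, h3, h4⟩
  · rintro ⟨W, hW, a, φ, h2, h3, h4⟩
    exact ⟨W, hW, ofCl a, φ, a.closed, h2, h3, h4⟩

lemma pfc_eq {i : ℕ} {V U : Var k} (f : PrMor V U) (x : Ps i U) (z : Ps i V →₀ E) (D : ℕ)
    (h1 : ∀ w, z w ≠ 0 → im (ofPr f) w.1 = x.1)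
    (h2 : z.sum (fun w e => e * (deg (ofPr f) w.1 : E)) = D) :
    CUB.pfc E i f z = Finsupp.single x (D : E) := by
  have h3 : CUB.pfc E i f z = z.sum fun w e => e • CUB.pfPt E i f w :=
    Finsupp.linearCombination_apply E z
  rw [h3, ← h2, Finsupp.sum, Finsupp.sum]
  rw [Finsupp.single_finsetSum]
  apply Finset.sum_congr rfl
  intro w hw
  have h4 : im (ofPr f) w.1 = x.1 := h1 w (Finsupp.mem_support_iff.mp hw)
  have h5 : U.dim (f.g w.1) = i := by
    have h6 : U.dim (im (ofPr f) w.1) = i := by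
      rw [h4]
      exact x.2
    exact h6
  have h7 : CUB.pfPt E i f w = Finsupp.single (⟨f.g w.1, h5⟩ : Pool.Agent.Lib_helper55.Beil.Pts i U)
      (f.deg w.1 : E) := dif_pos h5
  have h8 : (⟨f.g w.1, h5⟩ : Pool.Agent.Lib_helper55.Beil.Pts i U) = x := Subtype.ext h4
  have h9 : z w • Finsupp.single x (f.deg w.1 : E) = Finsupp.single x (z w * (f.deg w.1 : E)) :=
    Finsupp.smul_single _ _ _
  rw [h7, h8]
  exact h9

/-! ## The theory -/

/-- The maps. -/
noncomputable def toMaps (T : Th.{v} k E) (i : ℕ) : Maps.{v} k E where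
  H n X := T.H i n X
  grp := inferInstance
  mod := inferInstance
  fin n X := T.fin i n X
  frob n X := T.fr i n X
  push n _ _ a := T.pf i n (ofCl a)
  res n _ _ j := T.pb i n (ofOp j)

variable {T : Th.{v} k E}

/-- The homology theory. -/
noncomputable def toHom (hT : T.Pub) (i : ℕ) : Homology.{v} k E i where
  toMaps := toMaps T i
  equivariant := ⟨fun n _ _ a m => hT.frob.push i n (ofCl a) (pr_of_cl a.closed) m,
    fun n _ _ j m => hT.frob.res i n (ofOp j) (Or.inl j.isOpen) m⟩
  localisation := fun n _ _ _ a j h =>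
    ⟨fun m => hT.loc.atX i n (ofCl a) (ofOp j) (comp_of h) m,
      T.bd i n (ofCl a) (ofOp j), fun z => hT.loc.atZ i n (ofCl a) (ofOp j) (comp_of h) z⟩
  vanishing := ⟨fun n X h => hT.van.empty i n X h,
    fun n X hX d h1 h2 => hT.van.large i n d X ⟨hX, h1⟩ h2⟩
  artin := by
    intro n X hint haff hsm h
    obtain ⟨d, hd⟩ := CUB.t_DST.2.1 k X (genericPoint X.X)
    rw [hd] at h
    exact hT.van.artin i n d X ⟨hint, hd⟩ haff hsm (by exact_mod_cast h)
  cl := fun X x => T.cl i X x
  functorial := ⟨fun _ _ a z h => hT.cyc.closed i (ofCl a) a.closed z h,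
    fun _ _ j u h => hT.cyc.res i (ofOp j) j.isOpen u h⟩
  invariant := ⟨fun X x => hT.frob.cls i X x,
    fun X c hc => hT.cyc.rat i X c (by rw [rat_eq]; exact hc)⟩
  fundamental := by
    intro X hint h m hm
    obtain ⟨e, he⟩ := hT.cyc.fund i X hint h m hm
    have h1 : e • T.cl i X ⟨gp X hint, h⟩ ∈ Submodule.span E {T.cl i X ⟨gp X hint, h⟩} :=
      Submodule.smul_mem _ e (Submodule.subset_span rfl)
    rw [he] at h1
    exact h1


variable (hT : T.Pub)

/-- The further maps. -/
noncomputable def toExtra : CUB.ExtraMaps (toHom hT) where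
  bd i n _ _ _ a j _ := T.bd i n (ofCl a) (ofOp j)
  line i n _ _ L := T.lb i n (ofLine L)

/-- The push-forward along proper morphisms. -/
noncomputable def toProper : CUB.ProperMaps (toHom hT) where
  pf i n _ _ f := T.pf i n (ofPr f)

/-- All properties of the push-forward and of the pull-back along lines. -/
noncomputable def full : CUB.Full (toHom hT) where
  toExtraMaps := toExtra hT
  toProperMaps := toProper hT
  pushFunctorial := ⟨fun i n X a h m => hT.push.one i n (ofCl a) h m,
    fun i n W Z X a b c h m =>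
      hT.push.comp i n (ofCl a) (ofCl b) (ofCl c) (pr_of_cl a.closed) (pr_of_cl b.closed) h m⟩
  isClopen := by
    intro i n Z X a j h m
    have h1 : ofOp j = ofCl a := mo_ext h.symm
    have h2 := hT.push.clopen i n (ofCl a) a.closed (by rw [← h1]; exact j.isOpen) m
    have h3 : T.R (ofOp j) (T.P (ofCl a) m) = m := by
      rw [h1]
      exact h2
    exact h3
  bdExact := fun i n _ _ _ a j h z => hT.loc.atZ i n (ofCl a) (ofOp j) (comp_of h) z
  bdNatural := by
    intro i n Z U X Z' U' X' a j h a' j' h' sZ sU sX h1 h2 u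
    exact hT.push.boundary i n (ofCl a) (ofOp j) (ofCl a') (ofOp j') (ofCl sZ.cl) (ofCl sU.cl)
      (ofCl sX.cl) (comp_of h) (comp_of h') (pr_of_cl sZ.cl.closed) (pr_of_cl sU.cl.closed)
      (pr_of_cl sX.cl.closed) h1.symm h2.symm u
  lineBij := fun i n _ _ q => hT.bundles.bij i n (ofLine q) (bun_of_line (line_ofLine q))
  lineFrob := fun i n _ _ q m => hT.frob.bun i n (ofLine q) (bun_of_line (line_ofLine q)) m
  lineNatural := by
    intro i n Y X Y' X' q q' sY sX h m
    have h1 : IsPullback q.q sY.e.hom sX.e.hom q'.q :=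
      IsPullback.of_vert_isIso ⟨h.symm⟩
    exact (hT.bundles.push i n (ofLine q') (ofLine q) (ofCl sY.cl) (ofCl sX.cl)
      (bun_of_line (line_ofLine q')) (pr_of_cl sX.cl.closed) h1 m).symm
  lineClass := fun i _ _ q x y h => hT.cyc.bun i (ofLine q) (bun_of_line (line_ofLine q)) x y h
  pfClosed := by
    intro i n Z X a f h m
    have h1 : ofPr f = ofCl a := mo_ext h
    have h2 : T.P (ofPr f) m = T.P (ofCl a) m := by rw [h1]
    exact h2
  pfFunctorial := fun i n _ _ _ f g h e m =>
    hT.push.comp i n (ofPr f) (ofPr g) (ofPr h) f.proper g.proper e m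
  pfRestriction := fun i n _ _ _ _ f f' j' j e m =>
    hT.push.base i n (ofOp j') (ofPr f') (ofPr f) (ofOp j) f.proper j.isOpen e m
  pfBoundary := fun i n _ _ _ _ _ _ a' j' h' a j h fZ fU fX h1 h2 u =>
    hT.push.boundary i n (ofCl a') (ofOp j') (ofCl a) (ofOp j) (ofPr fZ) (ofPr fU) (ofPr fX)
      (comp_of h') (comp_of h) fZ.proper fU.proper fX.proper h1 h2 u
  pfFrobenius := fun i n _ _ f m => hT.frob.push i n (ofPr f) f.proper m
  pfClasses := fun i _ _ f x => hT.cyc.push i (ofPr f) f.proper x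

/-! ## The conjectures -/

lemma inj_iff (i : ℕ) (X : Var k) : T.Inj i X ↔ (toHom hT i).Inj X := by
  have hmk : ∀ c : Pool.Agent.Lib_helper55.Beil.Pts i X →₀ E,
      (toHom hT i).clMap X (Submodule.Quotient.mk c) = T.C c := fun c => rfl
  constructor
  · intro h a b hab
    obtain ⟨a, rfl⟩ := Submodule.Quotient.mk_surjective _ a
    obtain ⟨b, rfl⟩ := Submodule.Quotient.mk_surjective _ b
    rw [hmk, hmk] at hab
    rw [Submodule.Quotient.eq]
    have h1 : T.C (a - b) = 0 := by
      have h2 : T.C (a - b) = T.C a - T.C b := map_sub (Finsupp.linearCombination E (T.cl i X)) a b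
      rw [h2, hab, sub_self]
    have h3 := h (a - b) h1
    rw [rat_eq] at h3
    exact h3
  · intro h c hc
    rw [rat_eq]
    have h1 : (toHom hT i).clMap X (Submodule.Quotient.mk c) = (toHom hT i).clMap X 0 := by
      exact (hmk c).trans (hc.trans (map_zero ((toHom hT i).clMap X)).symm)
    exact (Submodule.Quotient.mk_eq_zero _).mp (h h1)

lemma surj_iff (i : ℕ) (X : Var k) : T.Surj i X ↔ (toHom hT i).Surj X := by
  constructor
  · intro h m hm
    obtain ⟨c, hc⟩ := h m hm
    exact ⟨Submodule.Quotient.mk c, hc⟩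
  · intro h m hm
    obtain ⟨a, ha⟩ := h m hm
    obtain ⟨a, rfl⟩ := Submodule.Quotient.mk_surjective _ a
    exact ⟨a, ha⟩

lemma semi_iff (i : ℕ) (X : Var k) : T.Semi i X ↔ (toHom hT i).Semisimple X := Iff.rfl

lemma q1_iff (X : Var k) : T.Q1 X ↔ ∀ i, QCV.Q1 (toHom hT i) X :=
  forall_congr' fun i => and_congr (inj_iff hT i X) (and_congr (surj_iff hT i X) (semi_iff hT i X))

lemma tate_iff (X : Var k) : T.Tate X ↔ QCV.Tate (toHom hT) X :=
  forall_congr' fun i => and_congr (surj_iff hT i X) (semi_iff hT i X)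

/-! ## The further published properties -/

lemma ofPr_dbl {A : Type} [CommRing A] [Algebra k A] [Algebra.FiniteType k A] (b c : A) :
    ofPr (QCV.dbl b c k) = dm k A b c := rfl

lemma inv_dinv {A : Type} [CommRing A] [Algebra k A] [Algebra.FiniteType k A] (b c : A) :
    Inv k A b c (ofCl (QCV.autc (QCV.dinv b c k))) :=
  ⟨QCV.dinvHom b c, QCV.dinvHom_of b c, QCV.dinvHom_rt b c, rfl⟩

theorem pub2 : QCV.Pub2 (toHom hT) (full hT) where
  weights := fun i n h Z m hm => hT.van.weights i n Z h m hm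
  bdFrob := fun i n _ _ _ a j h u => hT.frob.boundary i n (ofCl a) (ofOp j) (comp_of h) u
  resExact := fun i n _ _ _ a j h u => hT.loc.atU i n (ofCl a) (ofOp j) (comp_of h) u
  lineRes := fun i n _ _ _ _ L L' l j h m =>
    hT.bundles.res i n (ofLine L) (ofLine L') (ofOp l) (ofOp j) (bun_of_line (line_ofLine L))
      (bun_of_line (line_ofLine L')) l.isOpen j.isOpen h m
  divisors := fun i X h => (inj_iff hT i X).mp (hT.cyc.divisors i X h)
  sectionZero := fun i n _ _ L s h m => hT.bundles.zero i n (ofLine L) (ofCl s) (line_ofLine L)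
    s.closed h m
  dbl := by
    refine ⟨⟨fun i n A _ _ _ b c => T.pb i n (dm k A b c)⟩, ?_, ?_, ?_, ?_⟩
    · intro i n A _ _ _ b c m
      exact hT.frob.dbl i n A b c m
    · intro i n A _ _ _ b c m
      exact (hT.cov.dbl A b c).1 i n m
    · intro i A _ _ _ b c x
      obtain ⟨z, h1, h2, h3⟩ := (hT.cov.dbl A b c).2 i x
      exact ⟨z, h1, pfc_eq (QCV.dbl b c k) x z 2 h2 h3⟩
    · intro i n A _ _ _ b c m
      exact hT.cov.inv i n A b c _ (inv_dinv b c) m
  etale := by
    refine ⟨⟨fun i n _ _ f => T.pb i n (ofEt f)⟩, ?_, ?_⟩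
    · intro i n V U f m
      exact hT.frob.res i n (ofEt f) (Or.inr (et_ofEt f)) m
    · intro V U f hU
      obtain ⟨D, hD, h1, h2⟩ := hT.cov.etale (ofEt f) (et_ofEt f) hU
      refine ⟨D, hD, fun i n m => h1 i n m, fun i x => ?_⟩
      obtain ⟨z, h3, h4, h5⟩ := h2 i x
      exact ⟨z, h3, pfc_eq (QCV.etPr f) x z D h4 h5⟩
  bundles := by
    refine ⟨⟨fun i n _ _ B => T.lb i n (ofBun B)⟩, ?_, ?_, ?_, ?_, ?_, ?_⟩
    · intro i n Y X B m
      exact hT.frob.bun i n (ofBun B) (bun_ofBun B) m
    · intro i n Y X B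
      exact hT.bundles.bij i n (ofBun B) (bun_ofBun B)
    · intro i n Y X B L h m
      have h1 : ofBun B = ofLine L := mo_ext h
      have h2 : T.V (ofBun B) m = T.V (ofLine L) m := by rw [h1]
      exact h2
    · intro i n Y X Y' X' B B' l j h m
      exact hT.bundles.res i n (ofBun B) (ofBun B') (ofOp l) (ofOp j) (bun_ofBun B) (bun_ofBun B')
        l.isOpen j.isOpen h.w.symm m
    · intro i n Y X Y' X' B B' r s h m
      exact hT.bundles.push i n (ofBun B) (ofBun B') (ofPr r) (ofPr s) (bun_ofBun B) s.proper h m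
    · intro i n Z U X Z' U' X' a j h a' j' h' BZ BU B h1 h2 u
      exact hT.bundles.boundary i n (ofCl a) (ofOp j) (ofCl a') (ofOp j') (ofBun BZ) (ofBun BU)
        (ofBun B) (comp_of h) (comp_of h') (bun_ofBun B) h1 h2 u

end UQ
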