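import Pool.Agent.QCV.Fin10
import Pool.Agent.QCV.H_CCX
import Pool.Agent.QCV.H_PRJ
import Pool.Agent.UQ.Hom

/-!
# UQ: the main results
-/

set_option autoImplicit false

open CategoryTheory AlgebraicGeometry Polynomial

namespace UQ

open Pool.Agent.Lib_helper55.Beil (Var)

universe v

variable {k : Type} [Field k] {E : Type} [Field E] {T : Th.{v} k E}

lemma alterations_to (h : Alterations k) : Pool.Agent.Lib_helper66.OneP.Alterations k := by
  intro U hU d hd
  obtain ⟨U', V, Y, a, p, b, h1, h2, h3, h4, h5⟩ := h U d ⟨hU, hd⟩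
  exact ⟨U', V, Y, toOp a h1, toEt p h2, toOp b h3, h4, h5⟩

lemma oddS_iff (P : Var k → Prop) (q : ℕ) : OddS P q ↔ QCV.OddSystems P q := Iff.rfl

lemma evenS_iff (P : Var k → Prop) (q : ℕ) : EvenS P q ↔ QCV.EvenSystems P q := Iff.rfl

lemma dblS_iff (P : Var k → Prop) (m : ℕ) : DblS P m ↔ QCV.DoubleCovers P m := Iff.rfl

lemma tate_eq (hT : T.Pub) : T.Tate = QCV.Tate (toHom hT) := by
  funext X
  exact propext (tate_iff hT X)

lemma q1_eq (hT : T.Pub) : T.Q1 = fun X : Var k => ∀ i, QCV.Q1 (toHom hT i) X := by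
  funext X
  exact propext (q1_iff hT X)

lemma allS_iff (P : Var k → Prop) (q : ℕ) : AllS P q ↔ QCV.AllSystems P q := Iff.rfl

lemma proj_iff {R : Type} [CommRing R] [Algebra k R] {n : ℕ} {ι : Type}
    (f : ι → MvPolynomial (Fin (n + 1)) R) (P : Var k → Prop) :
    (∀ X : Var k, PSub k f X → P X) ↔ ∀ (X : Var k) (_ : QCV.ProjSub f X), P X :=
  ⟨fun h X S => h X ((psub_iff f X).mpr ⟨S⟩),
    fun h X hX => by
      obtain ⟨S⟩ := (psub_iff f X).mp hX
      exact h X S⟩

lemma oddSP_iff (P : Var k → Prop) (q : ℕ) : OddSP P q ↔ QCV.OddSystemsP P q :=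
  forall_congr' fun _ => forall_congr' fun f => forall_congr' fun _ => forall_congr' fun _ =>
    forall_congr' fun _ => proj_iff f P

lemma allSP_iff (P : Var k → Prop) (q : ℕ) : AllSP P q ↔ QCV.AllSystemsP P q :=
  forall_congr' fun _ => forall_congr' fun f => forall_congr' fun _ => proj_iff f P

lemma cubS_iff (P : Var k → Prop) (q : ℕ) : CubS P q ↔ QCV.CubicSystems P q :=
  forall_congr' fun _ => forall_congr' fun f => forall_congr' fun _ => forall_congr' fun _ =>
    forall_congr' fun _ => proj_iff (fun _ : Fin 1 => cub f) P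

lemma surf_iff (hT : T.Pub) : T.Surf ↔
    ∀ Y : Var k, Y.SmoothProper 2 → (toHom hT 1).Surj Y ∧ (toHom hT 1).Semisimple Y :=
  forall_congr' fun Y => forall_congr' fun _ => and_congr (surj_iff hT 1 Y) (semi_iff hT 1 Y)

lemma low_iff (hT : T.Pub) (d : ℕ) :
    T.Low d ↔ ∀ X : Var k, X.DimLE d → QCV.Tate (toHom hT) X :=
  forall_congr' fun X => forall_congr' fun _ => tate_iff hT X

variable [Finite k] [CharZero E]

theorem quadrics (hT : T.Pub) (h2 : (2 : k) ≠ 0) : T.Quadrics where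
  odd d := by
    rw [low_iff hT, tate_eq hT]
    exact QCV.tate_odd (pub2 hT) h2 d
  oddP d := by
    rw [low_iff hT, tate_eq hT, oddSP_iff]
    exact (QCV.tate_odd (pub2 hT) h2 d).trans (QCV.oddP_iff (pub2 hT) (d + 1)).symm
  cubic d := by
    rw [low_iff hT, tate_eq hT, cubS_iff]
    exact QCV.tate_cubic (pub2 hT) h2 d
  even d h := by
    rw [low_iff hT] at h
    rw [tate_eq hT]
    exact QCV.tate_even (pub2 hT) h2 d h
  all d := by
    rw [low_iff hT, tate_eq hT]
    exact (QCV.tate_all (pub2 hT) h2 d).symm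
  allP d := by
    rw [low_iff hT, tate_eq hT, allSP_iff]
    exact ((QCV.allP_iff (pub2 hT) (d + 1)).trans (QCV.tate_all (pub2 hT) h2 d)).symm
  dis d h n m f hn hf hd := by
    rw [low_iff hT] at h
    rw [tate_eq hT]
    refine ⟨QCV.tate_dis_iff (pub2 hT) h2 d h (n + 1) m hn (by omega) f hf hd, fun X hX => ?_⟩
    obtain ⟨S⟩ := (psub_iff f X).mp hX
    exact QCV.tate_disP_iff (pub2 hT) h2 d h n m hn f hf hd S
  disQ n m f hn hf hd := by
    rw [tate_eq hT, q1_eq hT]
    refine ⟨QCV.q1_dis_iff (pub2 hT) h2 (n + 1) m hn (by omega) f hf hd, fun X hX => ?_⟩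
    obtain ⟨S⟩ := (psub_iff f X).mp hX
    exact QCV.q1_disP_iff (pub2 hT) h2 n m hn f hf hd S
  three := by
    rw [tate_eq hT, q1_eq hT]
    exact QCV.q1_three (pub2 hT) h2
  threeP := by
    rw [tate_eq hT, q1_eq hT, allSP_iff]
    exact QCV.q1_three_proj (pub2 hT) h2

theorem main (hT : T.Pub) : T.Main where
  one X hX := by
    rw [q1_eq hT]
    exact fun i => QCV.member_one (pub2 hT) X (member_to hX) i
  tate d := by
    rw [low_iff hT, tate_eq hT]
    refine (QCV.tate_member (pub2 hT) d).trans ?_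
    exact forall_congr' fun X => imp_congr_left member_iff.symm
  cone A _ _ _ n ι f h1 h2 := by
    choose m hm1 hm2 using h1
    rw [tate_eq hT] at h2 ⊢
    exact (QCV.tate_cone_iff (pub2 hT) f m hm2 hm1 h2).trans
      (proj_iff f (QCV.Tate (toHom hT))).symm
  quadrics h2 := quadrics hT h2

theorem main2 (hT : T.Pub) (hA' : Alterations k) : T.Main2 where
  tate d := by
    rw [low_iff hT, tate_eq hT]
    exact QCV.tate_sp_iff (pub2 hT) (alterations_to hA') d
  two := by
    rw [surf_iff hT, q1_eq hT]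
    constructor
    · exact fun h X hX i => QCV.member_two (pub2 hT) (alterations_to hA') h X (member_to hX) i
    · intro h Y hY
      have h1 := h Y (Member.small Y (QCV.dimLE_of_smoothProper hY)) 1
      exact ⟨h1.2.1, h1.2.2⟩
  odd h2 := by
    rw [surf_iff hT, q1_eq hT]
    constructor
    · exact fun h n f hn hf hd i => QCV.member_two (pub2 hT) (alterations_to hA') h _
        (QCV.member_oddSystems h2 2 n f hn hf hd) i
    · intro h Y hY
      have h1 : QCV.OddSystems (QCV.Tate (toHom hT)) (2 + 1) := fun n f hn hf hd i =>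
        ⟨(h n f hn hf hd i).2.1, (h n f hn hf hd i).2.2⟩
      exact (QCV.tate_odd (pub2 hT) h2 2).mpr h1 Y (QCV.dimLE_of_smoothProper hY) 1
  oddP h2 := by
    rw [surf_iff hT, q1_eq hT, oddSP_iff]
    constructor
    · exact fun h n f hn hf hd X S i => QCV.member_two (pub2 hT) (alterations_to hA') h _
        (QCV.member_oddSystemsP h2 2 n f hn hf hd X S) i
    · intro h Y hY
      have h1 : QCV.OddSystemsP (QCV.Tate (toHom hT)) (2 + 1) := fun n f hn hf hd X S i =>
        ⟨(h n f hn hf hd X S i).2.1, (h n f hn hf hd X S i).2.2⟩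
      exact (QCV.tate_odd (pub2 hT) h2 2).mpr ((QCV.oddP_iff (pub2 hT) 3).mp h1) Y
        (QCV.dimLE_of_smoothProper hY) 1
  cubic h2 := by
    rw [surf_iff hT, q1_eq hT, cubS_iff]
    constructor
    · exact fun h n f hn hf hd X S i => QCV.member_two (pub2 hT) (alterations_to hA') h _
        (QCV.member_cubicSystems h2 2 n f hn hf hd X S) i
    · intro h Y hY
      have h1 : QCV.CubicSystems (QCV.Tate (toHom hT)) (2 + 1) := fun n f hn hf hd X S i =>
        ⟨(h n f hn hf hd X S i).2.1, (h n f hn hf hd X S i).2.2⟩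
      exact (QCV.tate_cubic (pub2 hT) h2 2).mpr h1 Y (QCV.dimLE_of_smoothProper hY) 1
  all hP d := by
    have hP' : ∀ i, Pool.Agent.Lib_helper66.OneP.Purity (toHom hT i) := fun i Y d h m hm =>
      hP i Y d h m hm
    rw [q1_eq hT]
    constructor
    · exact fun h X hX i => QCV.member_all (pub2 hT) (alterations_to hA') hP' d h X (member_to hX) i
    · intro h Y D hD hY i
      refine h Y (Member.small Y ?_) i
      intro x
      exact (QCV.dimLE_of_smoothProper hY x).trans (by exact_mod_cast hD)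

omit [CharZero E] [Finite k] in
lemma four_of {R R' : Var k → Prop} (h : ∀ Y, R' Y → R Y) {n q : ℕ}
    {f : Fin (q + 1) → MvPolynomial (Fin (n + 1)) k} (hf : QCV.Three R' f) : Four R f :=
  ⟨h _ hf.1, (proj_iff f R).mpr fun Y S => h _ (hf.2.1 Y S), h _ hf.2.2.1,
    (proj_iff (n := n + 1 + q) (fun _ : Fin 1 => cub f) R).mpr fun Y S => h _ (hf.2.2.2 Y S)⟩

omit [Finite k] in
/-- Each integral variety. -/
theorem each [Finite k] (h2 : (2 : k) ≠ 0) (d : ℕ) (X : Var k) : Each.{v} k d X := by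
  intro hX hd
  obtain ⟨n, f, h1, h3, h4, h5⟩ := QCV.each3.{v} h2 X hX hd
  refine ⟨n, f, h1, h3, h4, ?_⟩
  intro E _ _ T hT
  obtain ⟨h6, h7⟩ := h5 E (toHom hT) _ (pub2 hT)
  have hq : ∀ Y : Var k, T.Q1 Y ↔ ∀ i, QCV.Q1 (toHom hT i) Y := fun Y =>
    iff_of_eq (congrFun (q1_eq hT) Y)
  refine ⟨fun h => four_of (fun Y hY => ?_) (h6 ((low_iff hT d).mp h)),
    fun h => four_of (fun Y hY => ?_) (h7 h)⟩
  · exact (tate_iff hT X).trans (Iff.trans hY (tate_iff hT Y).symm)
  · exact (tate_iff hT X).trans (Iff.trans hY (hq Y).symm)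

end UQ
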