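import Pool.Agent.Lib_helper55.Beil.Defs

/-!
# UQ: the language of the final statement (quadratic equations, the conjecture of Tate)

Everything which the final statement uses is defined in this file (and the varieties and the dimension of
points in `Lib_helper55/Beil/Defs.lean`).
-/

set_option autoImplicit false

open CategoryTheory AlgebraicGeometry Polynomial

namespace UQ

open Pool.Agent.Lib_helper55.Beil (Var)

universe v

variable {k : Type} [Field k]

/-! ## Points and morphisms -/

/-- The points of a variety. -/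
def Pt (X : Var k) : Type := X.X

/-- The dimension of (the closure of) a point. -/
noncomputable def di (X : Var k) (x : Pt X) : Cardinal := X.dim x

/-- The variety `X` has dimension at most `n`. -/
def DimLE (X : Var k) (n : ℕ) : Prop := ∀ x : Pt X, di X x ≤ n

/-- The `i`-dimensional points. -/
def Ps (i : ℕ) (X : Var k) : Type := {x : Pt X // di X x = i}

/-- The generic point of an integral variety. -/
noncomputable def gp (X : Var k) (h : IsIntegral X.X) : Pt X := genericPoint X.X

/-- The integral variety `X` has dimension `d`. -/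
def IDim (X : Var k) (d : ℕ) : Prop := ∃ h : IsIntegral X.X, di X (gp X h) = d

/-- A morphism of varieties. -/
structure Mo (X Y : Var k) where
  /-- the morphism of schemes -/
  g : X.X ⟶ Y.X
  comm : g ≫ Y.f = X.f

/-- The image of a point. -/
def im {X Y : Var k} (f : Mo X Y) (x : Pt X) : Pt Y := f.g x

/-- The degree of the residue field of `x` over that of its image (`0` if it is infinite). -/
noncomputable def deg {X Y : Var k} (f : Mo X Y) (x : Pt X) : ℕ := f.g.residueDegree x

/-- The morphism is a closed immersion. -/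
def Mo.Cl {X Y : Var k} (f : Mo X Y) : Prop := IsClosedImmersion f.g

/-- The morphism is an open immersion. -/
def Mo.Op {X Y : Var k} (f : Mo X Y) : Prop := LocallyRingedSpace.IsOpenImmersion f.g.toLRSHom

/-- The morphism is proper. -/
def Mo.Pr {X Y : Var k} (f : Mo X Y) : Prop := IsProper f.g

/-- The morphism is finite, etale and surjective. -/
def Mo.Et {X Y : Var k} (f : Mo X Y) : Prop := IsFinite f.g ∧ Etale f.g ∧ Surjective f.g

/-- The morphism `h` is the composition of `f` and `g`. -/
def Co {X Y Z : Var k} (f : Mo X Y) (g : Mo Y Z) (h : Mo X Z) : Prop := f.g ≫ g.g = h.g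

/-- The morphism `f` is the identity. -/
def Mo.One {X : Var k} (f : Mo X X) : Prop := f.g = 𝟙 X.X

/-- The square is cartesian. -/
def Ca {A B C D : Var k} (a : Mo A B) (b : Mo A C) (c : Mo B D) (d : Mo C D) : Prop :=
  IsPullback a.g b.g c.g d.g

/-- `a` is a closed immersion, `j` is an open immersion, and their images are complementary. -/
def Comp {Z U X : Var k} (a : Mo Z X) (j : Mo U X) : Prop :=
  a.Cl ∧ j.Op ∧ ∀ x : Pt X, (∃ z, im a z = x) ↔ ¬ ∃ u, im j u = x

/-- `q` is the projection of the product of `X` and the affine line. -/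
def Mo.Line {Y X : Var k} (q : Mo Y X) : Prop :=
  ∃ t : Y.X ⟶ Spec (CommRingCat.of k[X]),
    IsPullback q.g t X.f (Spec.map (CommRingCat.ofHom (algebraMap k k[X])))

/-- `q` is, locally on `X`, the projection of the product with the affine line (for example the
projection of a line bundle). -/
def Mo.Bun {Y X : Var k} (q : Mo Y X) : Prop :=
  ∀ x : Pt X, ∃ (W V : Var k) (L : Mo W V) (l : Mo W Y) (j : Mo V X),
    L.Line ∧ l.Op ∧ j.Op ∧ Ca L l j q ∧ ∃ v, im j v = x

/-- `Y` is a smooth proper integral variety of dimension `d`. -/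
def SP (Y : Var k) (d : ℕ) : Prop := Smooth Y.f ∧ IsProper Y.f ∧ IDim Y d

/-- The theorem of de Jong on alterations (over a perfect field). -/
def Alterations (k : Type) [Field k] : Prop :=
  ∀ (U : Var k) (d : ℕ), IDim U d → ∃ (U' V Y : Var k) (a : Mo U' U) (p : Mo V U') (b : Mo V Y),
    a.Op ∧ p.Et ∧ b.Op ∧ Nonempty (Pt U') ∧ SP Y d

/-! ## Affine varieties -/

section Affine

variable (k) (A : Type) [CommRing A] [Algebra k A] [Algebra.FiniteType k A]

/-- The spectrum of an algebra. -/
noncomputable def sp : Var k where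
  X := Spec (CommRingCat.of A)
  f := Spec.map (CommRingCat.ofHom (algebraMap k A))
  sep := inferInstance
  lft := (HasRingHomProperty.Spec_iff (P := @LocallyOfFiniteType)).2
    (RingHom.finiteType_algebraMap.2 inferInstance)
  qc := inferInstance

/-- The spectrum of `A[x]`. -/
noncomputable def spol : Var k := sp k A[X]

/-- The polynomial `t ^ 2 + b t + c`. -/
noncomputable def dp {A : Type} [CommRing A] (b c : A) : A[X] := X ^ 2 + C b * X + C c

lemma dp_monic {A : Type} [CommRing A] (b c : A) : (dp b c).Monic := by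
  unfold dp
  monicity!

lemma ft_dp {A : Type} [CommRing A] [Algebra k A] [Algebra.FiniteType k A] (b c : A) :
    Algebra.FiniteType k (AdjoinRoot (dp b c)) := by
  have : Module.Finite A (AdjoinRoot (dp b c)) := (dp_monic b c).finite_adjoinRoot
  exact Algebra.FiniteType.trans (S := A) inferInstance inferInstance

/-- The spectrum of `A[t] / (t ^ 2 + b t + c)`. -/
noncomputable def sdbl (b c : A) : Var k := @sp k _ (AdjoinRoot (dp b c)) _ _ (ft_dp k b c)

/-- The projection of the double cover. -/
noncomputable def dm (b c : A) : Mo (sdbl k A b c) (sp k A) where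
  g := Spec.map (CommRingCat.ofHom (AdjoinRoot.of (dp b c)))
  comm := by
    change Spec.map _ ≫ Spec.map _ = Spec.map _
    rw [← Spec.map_comp, ← CommRingCat.ofHom_comp]
    rfl

/-- The morphism `s` is the involution `t ↦ - b - t` of the double cover. -/
def Inv (b c : A) (s : Mo (sdbl k A b c) (sdbl k A b c)) : Prop :=
  ∃ h : AdjoinRoot (dp b c) →+* AdjoinRoot (dp b c),
    (∀ a, h (AdjoinRoot.of (dp b c) a) = AdjoinRoot.of (dp b c) a) ∧
    h (AdjoinRoot.root (dp b c)) = - AdjoinRoot.of (dp b c) b - AdjoinRoot.root (dp b c) ∧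
    s.g = Spec.map (CommRingCat.ofHom h)

/-- The subvariety `f = 0` of the spectrum of `A`. -/
noncomputable def squo {ι : Type} (f : ι → A) : Var k := sp k (A ⧸ Ideal.span (Set.range f))

/-- The subvariety `f = 0` of the affine space over `A`. -/
noncomputable def szer {n : ℕ} {ι : Type} (f : ι → MvPolynomial (Fin n) A) : Var k :=
  sp k (MvPolynomial (Fin n) A ⧸ Ideal.span (Set.range f))

/-- The variety `y ^ 2 - y = t_0 f_0 + ... + t_(m-1) f_(m-1)`. -/
noncomputable def sas {m : ℕ} (f : Fin m → A) : Var k :=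
  sdbl k (MvPolynomial (Fin m) A) (-1) (-∑ j, MvPolynomial.X j * MvPolynomial.C (f j))

/-- The double cover `t ^ 2 = (-1) ^ m a_0 ... a_(n-1)`. -/
noncomputable def sdia (m : ℕ) {n : ℕ} (a : Fin n → A) : Var k :=
  sdbl k A 0 ((-1) ^ (m + 1) * ∏ j, a j)

end Affine

/-! ## Quadratic forms -/

/-- The diagonal form `a_0 x_0 ^ 2 + ... + a_(n-1) x_(n-1) ^ 2`. -/
noncomputable def dia {A : Type} [CommRing A] {n : ℕ} (a : Fin n → A) : MvPolynomial (Fin n) A :=
  ∑ j, MvPolynomial.C (a j) * MvPolynomial.X j ^ 2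

/-- The matrix of second derivatives of a quadratic form. -/
noncomputable def gram {A : Type} [CommRing A] {n : ℕ} (f : MvPolynomial (Fin n) A) :
    Matrix (Fin n) (Fin n) A :=
  fun i j => MvPolynomial.coeff 0 (MvPolynomial.pderiv i (MvPolynomial.pderiv j f))

/-- The form `f_0 + t_1 f_1 + ... + t_q f_q` over `R[t_1, ..., t_q]`. -/
noncomputable def gen {R : Type} [CommRing R] {n q : ℕ}
    (f : Fin (q + 1) → MvPolynomial (Fin n) R) : MvPolynomial (Fin n) (MvPolynomial (Fin q) R) :=
  MvPolynomial.map MvPolynomial.C (f 0) +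
    ∑ j, MvPolynomial.C (MvPolynomial.X j) * MvPolynomial.map MvPolynomial.C (f j.succ)

/-- All forms of the family are of degree two. -/
def Quad {R ι : Type} [CommRing R] {n : ℕ} (f : ι → MvPolynomial (Fin n) R) : Prop :=
  ∀ j, (f j).IsHomogeneous 2

/-- The form `f` is nondegenerate (over an integral domain). -/
def Nd {R : Type} [CommRing R] {n : ℕ} (f : MvPolynomial (Fin n) R) : Prop := (gram f).det ≠ 0

/-- The generic linear combination of the forms is nondegenerate (over an integral domain). -/
def NdS {R : Type} [CommRing R] {n q : ℕ} (f : Fin (q + 1) → MvPolynomial (Fin n) R) : Prop :=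
  Nd (gen f)

/-- The quadric cone `a_0 x_0 ^ 2 + ... + a_(n-1) x_(n-1) ^ 2 = 0` over `A`. -/
noncomputable def cone (k : Type) [Field k] (A : Type) [CommRing A] [Algebra k A]
    [Algebra.FiniteType k A] {n : ℕ} (a : Fin n → A) : Var k :=
  szer k A fun _ : Fin 1 => dia a

/-- The discriminant double cover `t ^ 2 = (-1) ^ m det` of a form (in `2 m` variables). -/
noncomputable def dis (k : Type) [Field k] (A : Type) [CommRing A] [Algebra k A]
    [Algebra.FiniteType k A] (m : ℕ) {n : ℕ} (f : MvPolynomial (Fin n) A) : Var k :=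
  sdbl k A 0 ((-1) ^ (m + 1) * (gram f).det)

/-- The discriminant double cover of a linear system of forms (in `2 m` variables). -/
noncomputable def disS (k : Type) [Field k] (A : Type) [CommRing A] [Algebra k A]
    [Algebra.FiniteType k A] (m : ℕ) {n q : ℕ} (f : Fin (q + 1) → MvPolynomial (Fin n) A) : Var k :=
  dis k (MvPolynomial (Fin q) A) m (gen f)

/-- All `a j` are units. -/
def Units {A : Type} [CommRing A] {n : ℕ} (a : Fin n → A) : Prop := ∀ j, IsUnit (a j)

/-! ## The class of varieties -/

/-- The class of varieties over `k` which is built from the varieties of dimension at most `d`. -/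
inductive Member (k : Type) [Field k] (d : ℕ) : Var k → Prop
  /-- varieties of dimension at most `d` -/
  | small (X : Var k) : DimLE X d → Member k d X
  /-- isomorphic varieties -/
  | iso {X Y : Var k} (f : Mo X Y) : IsIso f.g → Member k d X → Member k d Y
  /-- a closed subvariety with the same points (for example the reduced subvariety) -/
  | nil {Z X : Var k} (a : Mo Z X) : a.Cl → Function.Surjective (im a) → Member k d X →
      Member k d Z
  /-- `X` is the disjoint union of the closed subvariety `Z` and the open subvariety `U` -/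
  | paste {Z U X : Var k} (a : Mo Z X) (j : Mo U X) : Comp a j →
      Member k d Z → Member k d U → Member k d X
  /-- the complement of the closed subvariety `Z` of `X` -/
  | cut {Z U X : Var k} (a : Mo Z X) (j : Mo U X) : Comp a j →
      Member k d X → Member k d Z → Member k d U
  /-- the product with the affine line -/
  | line (A : Type) [CommRing A] [Algebra k A] [Algebra.FiniteType k A] :
      Member k d (sp k A) → Member k d (spol k A)
  /-- descent from the product `Y` of `X` and the affine line to `X` -/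
  | unline {Y X : Var k} (q : Mo Y X) : q.Line → Member k d Y → Member k d X
  /-- descent along the double cover `Spec A[t] / (t ^ 2 + b t + c) → Spec A` -/
  | cover (A : Type) [CommRing A] [Algebra k A] [Algebra.FiniteType k A] (b c : A) :
      Member k d (sdbl k A b c) → Member k d (sp k A)
  /-- descent along the finite etale covering `V → U` of an integral variety -/
  | etale {V U : Var k} (f : Mo V U) : f.Et → IsIntegral U.X → Member k d V → Member k d U
  /-- the base `X` of a line bundle `Y → X`, if the complement `U` of the section `s` belongs to the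
  class -/
  | bundle {Y X U : Var k} (q : Mo Y X) (s : Mo X Y) (j : Mo U Y) :
      q.Bun → s.g ≫ q.g = 𝟙 X.X → Comp s j → Member k d U → Member k d X
  /-- the quadric cone `a_0 x_0 ^ 2 + ... + a_2m x_2m ^ 2 = 0` over `Spec A`, where the `a_j` are
  units of `A` -/
  | odd (A : Type) [CommRing A] [Algebra k A] [Algebra.FiniteType k A] (m : ℕ)
      (a : Fin (2 * m + 1) → A) : Units a → Member k d (sp k A) → Member k d (cone k A a)
  /-- the quadric cone `a_0 x_0 ^ 2 + ... + a_(2m-1) x_(2m-1) ^ 2 = 0` over `Spec A`, where the `a_j` are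
  units of `A`, if the double cover `t ^ 2 = (-1) ^ m a_0 ... a_(2m-1)` of `Spec A` belongs to the class
  (characteristic different from two) -/
  | even (A : Type) [CommRing A] [Algebra k A] [Algebra.FiniteType k A] (m : ℕ)
      (a : Fin (2 * m) → A) : (2 : k) ≠ 0 → Units a → Member k d (sdia k A m a) →
      Member k d (cone k A a)
  /-- the subvariety `f_0 = ... = f_m = 0` of `Spec A`, if the hypersurface
  `y ^ 2 - y = t_0 f_0 + ... + t_m f_m` in the product with the affine space of dimension `m + 2`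
  belongs to the class -/
  | zeros (A : Type) [CommRing A] [Algebra k A] [Algebra.FiniteType k A] (m : ℕ)
      (f : Fin (m + 1) → A) : Member k d (sas k A f) → Member k d (squo k A f)

/-! ## Members -/

attribute [local instance] MvPolynomial.gradedAlgebra

/-- The grading of `R[x_0, ..., x_n]`. -/
noncomputable abbrev gr (R : Type) [CommRing R] (n : ℕ) :
    ℕ → Submodule R (MvPolynomial (Fin (n + 1)) R) :=
  MvPolynomial.homogeneousSubmodule (Fin (n + 1)) R

/-- The projective space `Proj R[x_0, ..., x_n]`. -/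
noncomputable abbrev PS (R : Type) [CommRing R] (n : ℕ) : Scheme.{0} := Proj (gr R n)

/-- The structure morphism of the projective space over `k`. -/
noncomputable def psf (k R : Type) [Field k] [CommRing R] [Algebra k R] (n : ℕ) :
    PS R n ⟶ Spec (CommRingCat.of k) :=
  Proj.toSpecZero (gr R n) ≫ Spec.map (CommRingCat.ofHom
    ((algebraMap R (gr R n 0)).comp (algebraMap k R)))

/-- The homogeneous polynomials `f j` vanish at the point `p`. -/
def VanAt {R : Type} [CommRing R] {n : ℕ} {ι : Type} (f : ι → MvPolynomial (Fin (n + 1)) R)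
    (p : ProjectiveSpectrum (gr R n)) : Prop := ∀ j, f j ∈ p.asHomogeneousIdeal.toIdeal

/-- `X` is a closed subvariety of the projective space over `R` which is, up to nilpotents, defined by
the homogeneous polynomials `f j`. -/
def PSub (k : Type) [Field k] {R : Type} [CommRing R] [Algebra k R] {n : ℕ} {ι : Type}
    (f : ι → MvPolynomial (Fin (n + 1)) R) (X : Var k) : Prop :=
  ∃ g : X.X ⟶ PS R n, IsClosedImmersion g ∧ g ≫ psf k R n = X.f ∧
    ∀ p : ProjectiveSpectrum (gr R n), (∃ x : X.X, g x = p) ↔ VanAt f p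

section Families

variable (k : Type) [Field k] (d : ℕ) (A : Type) [CommRing A] [Algebra k A]
  [Algebra.FiniteType k A]

/-- The affine and the projective varieties defined by the homogeneous polynomials `f j` are members. -/
def Both {n : ℕ} {ι : Type} (f : ι → MvPolynomial (Fin (n + 1)) A) : Prop :=
  Member k d (szer k A f) ∧ ∀ X : Var k, PSub k f X → Member k d X

/-- The base `A` has dimension at most `e`, `e ≤ d`, `r + e ≤ d + 1`. -/
def Num (r e : ℕ) : Prop := e ≤ d ∧ r + e ≤ d + 1 ∧ DimLE (sp k A) e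

/-- Linear equations and `r` equations of degree at most two over an affine base. -/
def Eqs {n r s : ℕ} (e : ℕ) (f : Fin s ⊕ Fin r → MvPolynomial (Fin n) A) : Prop :=
  Num k d A r e → (∀ j, (f (Sum.inl j)).totalDegree ≤ 1) →
    (∀ j, (f (Sum.inr j)).totalDegree ≤ 2) → Member k d (szer k A f)

/-- The polynomial `p` has degree at most `m` in the variables `x_i`, `i > a`. -/
def XDeg {R : Type} [CommRing R] {n : ℕ} (a m : ℕ) (p : MvPolynomial (Fin (n + 1)) R) : Prop :=
  ∀ u ∈ p.support, (Finset.univ.filter (fun i : Fin (n + 1) => a < i.1)).sum (fun i => u i) ≤ m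

/-- Projective varieties; the forms may have arbitrary degrees in the first `a + 1` variables. -/
def Forms {n r s : ℕ} (e a : ℕ) (f : Fin s ⊕ Fin r → MvPolynomial (Fin (n + 1)) A)
    (m : Fin s ⊕ Fin r → ℕ) : Prop :=
  e + a ≤ d → r + e + a ≤ d + 1 → DimLE (sp k A) e →
    (∀ j, (f j).IsHomogeneous (m j)) → (∀ j, 1 ≤ m j) → (∀ j, XDeg a 1 (f (Sum.inl j))) →
    (∀ j, XDeg a 2 (f (Sum.inr j))) → ∀ X : Var k, PSub k f X → Member k d X

/-- The homomorphism `R[t_1, ..., t_q] → Frac ((R / p)[t_1, ..., t_q])`. -/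
noncomputable def gh {R : Type} [CommRing R] (q : ℕ) (p : PrimeSpectrum R) :
    MvPolynomial (Fin q) R →+* FractionRing (MvPolynomial (Fin q) (R ⧸ p.asIdeal)) :=
  (algebraMap (MvPolynomial (Fin q) (R ⧸ p.asIdeal)) _).comp
    (MvPolynomial.map (Ideal.Quotient.mk p.asIdeal))

/-- The generic linear combination of the forms has odd rank over the prime `p`. -/
def OddAt {R : Type} [CommRing R] {n q : ℕ} (f : Fin (q + 1) → MvPolynomial (Fin n) R)
    (p : PrimeSpectrum R) : Prop := Odd ((gram (gen f)).map (gh q p)).rank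

/-- The generic linear combination of the forms has odd rank over every prime of dimension at least
`e` of the base. -/
def OddG {n q : ℕ} (e : ℕ) (f : Fin (q + 1) → MvPolynomial (Fin n) A) : Prop :=
  ∀ p : PrimeSpectrum A, (e : Cardinal) ≤ Algebra.trdeg k (A ⧸ p.asIdeal) → OddAt f p

/-- `q + 1` quadratic forms whose generic linear combination has odd rank. -/
def OddF {n q : ℕ} (e : ℕ) (f : Fin (q + 1) → MvPolynomial (Fin (n + 1)) A) : Prop :=
  Num k d A q e → Quad f → OddG k A e f → Both k d A f

/-- `q + 1` quadratic forms in an even number of variables, if the discriminant double cover is a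
member. -/
def EvenF {n q : ℕ} (m e : ℕ) (f : Fin (q + 1) → MvPolynomial (Fin (n + 1)) A) : Prop :=
  IsDomain A → n + 1 = 2 * m → Num k d A q e → Quad f → NdS f →
    Member k d (disS k A m f) → Both k d A f

/-- The form `f` has odd rank over the fraction field. -/
def OddR {n : ℕ} (f : MvPolynomial (Fin n) A) : Prop :=
  Odd ((gram f).map (algebraMap A (FractionRing A))).rank

/-- One quadratic form over a member of dimension at most `d + 1`. -/
def OddB {n : ℕ} (f : MvPolynomial (Fin (n + 1)) A) : Prop :=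
  IsDomain A → DimLE (sp k A) (d + 1) → Member k d (sp k A) → f.IsHomogeneous 2 → OddR A f →
    Both k d A fun _ : Fin 1 => f

/-- One quadratic form in an even number of variables over a variety of dimension at most `d + 1`, if
the discriminant double cover is a member. -/
def EvenB {n : ℕ} (m : ℕ) (f : MvPolynomial (Fin (n + 1)) A) : Prop :=
  IsDomain A → DimLE (sp k A) (d + 1) → n + 1 = 2 * m → f.IsHomogeneous 2 → Nd f →
    Member k d (dis k A m f) → Both k d A fun _ : Fin 1 => f

/-- Hypersurfaces of degree at most three in the affine space of dimension at most `d + 3`. -/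
def CubA {n : ℕ} (f : MvPolynomial (Fin n) k) : Prop :=
  n ≤ d + 3 → f.totalDegree ≤ 3 → Member k d (szer k k fun _ : Fin 1 => f)

/-- Projective cubic hypersurfaces of dimension at most `d + 2`. -/
def CubP {n : ℕ} (f : MvPolynomial (Fin (n + 1)) k) : Prop :=
  n ≤ d + 3 → f.IsHomogeneous 3 → ∀ X : Var k, PSub k (fun _ : Fin 1 => f) X → Member k d X

/-- A nonempty open subvariety of `X` has a finite etale covering which is an open subvariety of the
product of the integral affine variety `Spec A` of dimension at most `d` and the affine line. -/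
def UniA (X : Var k) : Prop :=
  ∃ (U V : Var k) (j : Mo U X) (p : Mo V U) (o : Mo V (spol k A)),
    j.Op ∧ p.Et ∧ o.Op ∧ Nonempty (Pt U) ∧ IsDomain A ∧ DimLE (sp k A) d

end Families

/-- The members of the class. -/
structure Members (k : Type) [Field k] (d : ℕ) : Prop where
  equations : ∀ (A : Type) [CommRing A] [Algebra k A] [Algebra.FiniteType k A] (n r s e : ℕ)
    (f : Fin s ⊕ Fin r → MvPolynomial (Fin n) A), Eqs k d A e f
  forms : ∀ (A : Type) [CommRing A] [Algebra k A] [Algebra.FiniteType k A] (n r s e a : ℕ)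
    (f : Fin s ⊕ Fin r → MvPolynomial (Fin (n + 1)) A) (m : Fin s ⊕ Fin r → ℕ),
    Forms k d A e a f m
  uniruled : ∀ (A : Type) [CommRing A] [Algebra k A] [Algebra.FiniteType k A] (X : Var k),
    IsIntegral X.X → DimLE X (d + 1) → UniA k d A X → Member k d X
  oddForms : (2 : k) ≠ 0 → ∀ (A : Type) [CommRing A] [Algebra k A] [Algebra.FiniteType k A]
    (n q e : ℕ) (f : Fin (q + 1) → MvPolynomial (Fin (n + 1)) A), OddF k d A e f
  evenForms : (2 : k) ≠ 0 → ∀ (A : Type) [CommRing A] [Algebra k A] [Algebra.FiniteType k A]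
    (n m q e : ℕ) (f : Fin (q + 1) → MvPolynomial (Fin (n + 1)) A), EvenF k d A m e f
  oddBase : (2 : k) ≠ 0 → ∀ (A : Type) [CommRing A] [Algebra k A] [Algebra.FiniteType k A]
    (n : ℕ) (f : MvPolynomial (Fin (n + 1)) A), OddB k d A f
  evenBase : (2 : k) ≠ 0 → ∀ (A : Type) [CommRing A] [Algebra k A] [Algebra.FiniteType k A]
    (n m : ℕ) (f : MvPolynomial (Fin (n + 1)) A), EvenB k d A m f
  cubicsA : PerfectField k → (2 : k) ≠ 0 → 1 ≤ d → ∀ (n : ℕ) (f : MvPolynomial (Fin n) k),
    CubA k d f
  cubicsP : PerfectField k → (2 : k) ≠ 0 → 1 ≤ d → ∀ (n : ℕ) (f : MvPolynomial (Fin (n + 1)) k),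
    CubP k d f

/-- The property `P` holds for the affine zero sets of `q + 1` quadratic forms over `k` with
nondegenerate generic linear combination, in an odd number of variables. -/
def OddS (P : Var k → Prop) (q : ℕ) : Prop :=
  ∀ (n : ℕ) (f : Fin (q + 1) → MvPolynomial (Fin n) k), Odd n → Quad f → NdS f → P (szer k k f)

/-- The same for an even number of variables. -/
def EvenS (P : Var k → Prop) (q : ℕ) : Prop :=
  ∀ (n : ℕ) (f : Fin (q + 1) → MvPolynomial (Fin n) k), Even n → Quad f → NdS f → P (szer k k f)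

/-- The property `P` holds for the affine zero sets of any `q + 1` quadratic forms over `k`. -/
def AllS (P : Var k → Prop) (q : ℕ) : Prop :=
  ∀ (n : ℕ) (f : Fin (q + 1) → MvPolynomial (Fin n) k), Quad f → P (szer k k f)

/-- As `OddS`, for the projective zero sets. -/
def OddSP (P : Var k → Prop) (q : ℕ) : Prop :=
  ∀ (n : ℕ) (f : Fin (q + 1) → MvPolynomial (Fin (n + 1)) k), Odd (n + 1) → Quad f → NdS f →
    ∀ X : Var k, PSub k f X → P X

/-- As `AllS`, for the projective zero sets. -/
def AllSP (P : Var k → Prop) (q : ℕ) : Prop :=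
  ∀ (n : ℕ) (f : Fin (q + 1) → MvPolynomial (Fin (n + 1)) k), Quad f →
    ∀ X : Var k, PSub k f X → P X

/-- The cubic form `t_0 f_0(x) + ... + t_q f_q(x)` in the variables
`x_0, ..., x_(n-1), t_0, ..., t_q`. -/
noncomputable def cub {n q : ℕ} (f : Fin (q + 1) → MvPolynomial (Fin n) k) :
    MvPolynomial (Fin (n + q + 1)) k :=
  ∑ j, MvPolynomial.X (Fin.natAdd n j) * MvPolynomial.rename (Fin.castAdd (q + 1)) (f j)

/-- The property `P` holds for the projective cubic hypersurfaces `t_0 f_0(x) + ... + t_q f_q(x) = 0`,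
for `q + 1` quadratic forms over `k` with nondegenerate generic linear combination, in an odd number of
variables. -/
def CubS (P : Var k → Prop) (q : ℕ) : Prop :=
  ∀ (n : ℕ) (f : Fin (q + 1) → MvPolynomial (Fin n) k), Odd n → Quad f → NdS f →
    ∀ X : Var k, PSub k (fun _ : Fin 1 => cub f) X → P X

/-- The double cover `t ^ 2 = g(x_1, ..., x_m)` of the affine space. -/
noncomputable def dsp {m : ℕ} (g : MvPolynomial (Fin m) k) : Var k :=
  sdbl k (MvPolynomial (Fin m) k) 0 (-g)

/-- The property `P` holds for the double covers `t ^ 2 = g(x_1, ..., x_m)` of the affine space. -/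
def DblS (P : Var k → Prop) (m : ℕ) : Prop := ∀ g : MvPolynomial (Fin m) k, P (dsp g)

/-! ## Cycles -/

section Cycles

variable (E : Type) [Field E]

/-- The cycle `c` on `X` is the divisor of the rational function `φ` on the closed subvariety `W`. -/
def Dv {i : ℕ} {W X : Var k} (a : Mo W X) (hW : IsIntegral W.X) (φ : W.X.functionField)
    (c : Ps i X →₀ E) : Prop :=
  (∀ (w : Pt W) (h : di X (im a w) = i), c ⟨im a w, h⟩ = (Scheme.ord φ (w : W.X) : ℤ)) ∧
    ∀ x : Ps i X, (¬ ∃ w, im a w = x.1) → c x = 0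

/-- The cycles rationally equivalent to zero. -/
noncomputable def rat (i : ℕ) (X : Var k) : Submodule E (Ps i X →₀ E) :=
  Submodule.span E {c | ∃ (W : Var k) (hW : IsIntegral W.X) (a : Mo W X) (φ : W.X.functionField),
    a.Cl ∧ di W (gp W hW) = (i + 1 : ℕ) ∧ φ ≠ 0 ∧ Dv E a hW φ c}

end Cycles

/-! ## Homology theories -/

/-- Finite-dimensional vector spaces `H i n X` with their maps and the classes of points; the example is
the l-adic etale (Borel-Moore) homology `H_n(Xbar, Q_l(i))`.  The push-forward is used for proper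
morphisms, the pull-back for open immersions, finite etale coverings and double covers, the pull-back
`lb` for line bundles, the boundary map for complementary closed and open subvarieties. -/
structure Th (k : Type) [Field k] (E : Type) [Field E] where
  /-- the homology groups -/
  H : ℕ → ℕ → Var k → ModuleCat.{v} E
  fin : ∀ i n X, Module.Finite E (H i n X)
  /-- Frobenius -/
  fr : ∀ (i n : ℕ) (X : Var k), H i n X →ₗ[E] H i n X
  /-- push-forward -/
  pf : ∀ (i n : ℕ) {X Y : Var k}, Mo X Y → (H i n X →ₗ[E] H i n Y)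
  /-- pull-back -/
  pb : ∀ (i n : ℕ) {X Y : Var k}, Mo X Y → (H i n Y →ₗ[E] H i n X)
  /-- pull-back to a line bundle -/
  lb : ∀ (i n : ℕ) {Y X : Var k}, Mo Y X → (H i n X →ₗ[E] H (i + 1) (n + 2) Y)
  /-- boundary map -/
  bd : ∀ (i n : ℕ) {Z U X : Var k}, Mo Z X → Mo U X → (H i (n + 1) U →ₗ[E] H i n Z)
  /-- the class of an `i`-dimensional point -/
  cl : ∀ (i : ℕ) (X : Var k), Ps i X → H i (2 * i) X

section Theory

variable {E : Type} [Field E] (T : Th.{v} k E) {i n : ℕ}

/-- Frobenius. -/
def Th.F {X : Var k} (m : T.H i n X) : T.H i n X := T.fr i n X m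

/-- Push-forward. -/
def Th.P {X Y : Var k} (f : Mo X Y) (m : T.H i n X) : T.H i n Y := T.pf i n f m

/-- Pull-back. -/
def Th.R {X Y : Var k} (f : Mo X Y) (m : T.H i n Y) : T.H i n X := T.pb i n f m

/-- Pull-back to a line bundle. -/
def Th.V {Y X : Var k} (q : Mo Y X) (m : T.H i n X) : T.H (i + 1) (n + 2) Y := T.lb i n q m

/-- Boundary. -/
def Th.B {Z U X : Var k} (a : Mo Z X) (j : Mo U X) (u : T.H i (n + 1) U) : T.H i n Z :=
  T.bd i n a j u

/-- The class of a cycle. -/
noncomputable def Th.C {X : Var k} (c : Ps i X →₀ E) : T.H i (2 * i) X :=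
  Finsupp.linearCombination E (T.cl i X) c

/-- The cycle class map is injective on the cycles modulo rational equivalence. -/
def Th.Inj (i : ℕ) (X : Var k) : Prop := ∀ c : Ps i X →₀ E, T.C c = 0 → c ∈ rat E i X

/-- The cycle class map is surjective onto the invariants of Frobenius. -/
def Th.Surj (i : ℕ) (X : Var k) : Prop :=
  ∀ m : T.H i (2 * i) X, T.F m = m → ∃ c : Ps i X →₀ E, T.C c = m

/-- The eigenvalue one of Frobenius is semisimple. -/
def Th.Semi (i : ℕ) (X : Var k) : Prop :=
  ∀ m : T.H i (2 * i) X, T.F (T.F m - m) = T.F m - m → T.F m = m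

/-- The generalised Beilinson conjecture for `X` (for cycles of all dimensions). -/
def Th.Q1 (X : Var k) : Prop := ∀ i, T.Inj i X ∧ T.Surj i X ∧ T.Semi i X

/-- The conjecture of Tate for `X` (for cycles of all dimensions). -/
def Th.Tate (X : Var k) : Prop := ∀ i, T.Surj i X ∧ T.Semi i X

/-- The conjecture of Tate for all varieties of dimension at most `d`. -/
def Th.Low (d : ℕ) : Prop := ∀ X : Var k, DimLE X d → T.Tate X

/-- The conjecture of Tate for divisors on smooth proper surfaces. -/
def Th.Surf : Prop := ∀ Y : Var k, SP Y 2 → T.Surj 1 Y ∧ T.Semi 1 Y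

/-- For homogeneous polynomials `f j` of positive degree over `A` (if `A` satisfies the conjecture of
Tate) the conjectures of Tate for the affine and for the projective zero sets are equivalent. -/
def Th.Cone (A : Type) [CommRing A] [Algebra k A] [Algebra.FiniteType k A] {n : ℕ} {ι : Type}
    (f : ι → MvPolynomial (Fin (n + 1)) A) : Prop :=
  (∀ j, ∃ m, 1 ≤ m ∧ (f j).IsHomogeneous m) → T.Tate (sp k A) →
    (T.Tate (szer k A f) ↔ ∀ X : Var k, PSub k f X → T.Tate X)

/-- `d + 2` quadratic forms in `n + 1 = 2 m` variables with nondegenerate generic linear combination: the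
conjecture of Tate for the affine or projective zero set is equivalent to the conjecture for the
discriminant double cover. -/
def Th.DisT (d m : ℕ) {n : ℕ} (f : Fin (d + 1 + 1) → MvPolynomial (Fin (n + 1)) k) : Prop :=
  n + 1 = 2 * m → Quad f → NdS f → (T.Tate (szer k k f) ↔ T.Tate (disS k k m f)) ∧
    ∀ X : Var k, PSub k f X → (T.Tate X ↔ T.Tate (disS k k m f))

/-- Three quadratic forms in `n + 1 = 2 m` variables with nondegenerate generic linear combination: the
generalised Beilinson conjecture for the affine or projective zero set is equivalent to the conjecture of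
Tate for the discriminant double plane. -/
def Th.DisQ (m : ℕ) {n : ℕ} (f : Fin (1 + 1 + 1) → MvPolynomial (Fin (n + 1)) k) : Prop :=
  n + 1 = 2 * m → Quad f → NdS f → (T.Q1 (szer k k f) ↔ T.Tate (disS k k m f)) ∧
    ∀ X : Var k, PSub k f X → (T.Q1 X ↔ T.Tate (disS k k m f))

/-- The push-forward along proper morphisms. -/
structure Th.Push : Prop where
  one : ∀ (i n : ℕ) {X : Var k} (f : Mo X X), f.One → ∀ m : T.H i n X, T.P f m = m
  comp : ∀ (i n : ℕ) {X Y Z : Var k} (f : Mo X Y) (g : Mo Y Z) (h : Mo X Z), f.Pr → g.Pr →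
    Co f g h → ∀ m : T.H i n X, T.P g (T.P f m) = T.P h m
  base : ∀ (i n : ℕ) {U' X' U X : Var k} (j' : Mo U' X') (f' : Mo U' U) (f : Mo X' X)
    (j : Mo U X), f.Pr → j.Op → Ca j' f' f j → ∀ m : T.H i n X', T.R j (T.P f m) = T.P f' (T.R j' m)
  clopen : ∀ (i n : ℕ) {Z X : Var k} (a : Mo Z X), a.Cl → a.Op → ∀ m : T.H i n Z,
    T.R a (T.P a m) = m
  boundary : ∀ (i n : ℕ) {Z' U' X' Z U X : Var k} (a' : Mo Z' X') (j' : Mo U' X') (a : Mo Z X)
    (j : Mo U X) (r : Mo Z' Z) (s : Mo U' U) (f : Mo X' X), Comp a' j' → Comp a j → r.Pr → s.Pr →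
    f.Pr → a'.g ≫ f.g = r.g ≫ a.g → j'.g ≫ f.g = s.g ≫ j.g →
    ∀ u : T.H i (n + 1) U', T.P r (T.B a' j' u) = T.B a j (T.P s u)

/-- The localisation sequences are exact. -/
structure Th.Loc : Prop where
  atX : ∀ (i n : ℕ) {Z U X : Var k} (a : Mo Z X) (j : Mo U X), Comp a j →
    ∀ m : T.H i n X, T.R j m = 0 ↔ ∃ z : T.H i n Z, T.P a z = m
  atZ : ∀ (i n : ℕ) {Z U X : Var k} (a : Mo Z X) (j : Mo U X), Comp a j →
    ∀ z : T.H i n Z, T.P a z = 0 ↔ ∃ u : T.H i (n + 1) U, T.B a j u = z
  atU : ∀ (i n : ℕ) {Z U X : Var k} (a : Mo Z X) (j : Mo U X), Comp a j →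
    ∀ u : T.H i (n + 1) U, T.B a j u = 0 ↔ ∃ m : T.H i (n + 1) X, T.R j m = u

/-- Vanishing in degree larger than twice the dimension, the theorem of Artin on affine varieties (with
Poincare duality), the theorem of Deligne on weights. -/
structure Th.Van : Prop where
  empty : ∀ (i n : ℕ) (X : Var k), IsEmpty (Pt X) → Subsingleton (T.H i n X)
  large : ∀ (i n d : ℕ) (X : Var k), IDim X d → 2 * d < n → Subsingleton (T.H i n X)
  artin : ∀ (i n d : ℕ) (X : Var k), IDim X d → IsAffine X.X → Smooth X.f → n < d →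
    Subsingleton (T.H i n X)
  weights : ∀ (i n : ℕ) (X : Var k), n + 1 = 2 * i → ∀ m : T.H i n X, T.F m = m → m = 0

/-- The pull-back along `f` commutes with Frobenius. -/
def Th.DblF (i n : ℕ) {X Y : Var k} (f : Mo X Y) : Prop :=
  ∀ m : T.H i n Y, T.R f (T.F m) = T.F (T.R f m)

/-- All maps commute with Frobenius. -/
structure Th.Frob : Prop where
  push : ∀ (i n : ℕ) {X Y : Var k} (f : Mo X Y), f.Pr → ∀ m : T.H i n X, T.P f (T.F m) = T.F (T.P f m)
  res : ∀ (i n : ℕ) {X Y : Var k} (f : Mo X Y), f.Op ∨ f.Et → T.DblF i n f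
  dbl : ∀ (i n : ℕ) (A : Type) [CommRing A] [Algebra k A] [Algebra.FiniteType k A] (b c : A),
    T.DblF i n (dm k A b c)
  bun : ∀ (i n : ℕ) {Y X : Var k} (q : Mo Y X), q.Bun → ∀ m : T.H i n X, T.V q (T.F m) = T.F (T.V q m)
  boundary : ∀ (i n : ℕ) {Z U X : Var k} (a : Mo Z X) (j : Mo U X), Comp a j →
    ∀ u : T.H i (n + 1) U, T.B a j (T.F u) = T.F (T.B a j u)
  cls : ∀ (i : ℕ) (X : Var k) (x : Ps i X), T.F (T.cl i X x) = T.cl i X x

/-- The classes of cycles. -/
structure Th.Cyc : Prop where
  rat : ∀ (i : ℕ) (X : Var k) (c : Ps i X →₀ E), c ∈ UQ.rat E i X → T.C c = 0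
  fund : ∀ (i : ℕ) (X : Var k) (h : IsIntegral X.X) (hd : di X (gp X h) = i) (m : T.H i (2 * i) X),
    m ∈ Module.End.maxGenEigenspace (T.fr i (2 * i) X) 1 → ∃ e : E, e • T.cl i X ⟨gp X h, hd⟩ = m
  push : ∀ (i : ℕ) {X Y : Var k} (f : Mo X Y), f.Pr → ∀ x : Ps i X,
    (∀ h : di Y (im f x.1) = i, T.P f (T.cl i X x) = (deg f x.1 : E) • T.cl i Y ⟨im f x.1, h⟩) ∧
    (di Y (im f x.1) ≠ i → T.P f (T.cl i X x) = 0)
  closed : ∀ (i : ℕ) {X Y : Var k} (f : Mo X Y), f.Cl → ∀ (x : Ps i X) (h : di Y (im f x.1) = i),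
    T.P f (T.cl i X x) = T.cl i Y ⟨im f x.1, h⟩
  res : ∀ (i : ℕ) {U X : Var k} (j : Mo U X), j.Op → ∀ (x : Ps i U) (h : di X (im j x.1) = i),
    T.R j (T.cl i X ⟨im j x.1, h⟩) = T.cl i U x
  bun : ∀ (i : ℕ) {Y X : Var k} (q : Mo Y X), q.Bun → ∀ (x : Ps i X) (y : Ps (i + 1) Y),
    im q y.1 = x.1 → T.V q (T.cl i X x) = T.cl (i + 1) Y y
  divisors : ∀ (i : ℕ) (X : Var k), DimLE X (i + 1) → T.Inj i X

/-- The pull-back along line bundles. -/
structure Th.Bundles : Prop where
  bij : ∀ (i n : ℕ) {Y X : Var k} (q : Mo Y X), q.Bun →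
    Function.Bijective (T.V q : T.H i n X → T.H (i + 1) (n + 2) Y)
  res : ∀ (i n : ℕ) {Y X Y' X' : Var k} (q : Mo Y X) (q' : Mo Y' X') (l : Mo Y' Y) (j : Mo X' X),
    q.Bun → q'.Bun → l.Op → j.Op → l.g ≫ q.g = q'.g ≫ j.g →
    ∀ m : T.H i n X, T.R l (T.V q m) = T.V q' (T.R j m)
  push : ∀ (i n : ℕ) {Y X Y' X' : Var k} (q : Mo Y X) (q' : Mo Y' X') (r : Mo Y' Y) (s : Mo X' X),
    q.Bun → s.Pr → Ca q' r s q → ∀ m : T.H i n X', T.V q (T.P s m) = T.P r (T.V q' m)
  boundary : ∀ (i n : ℕ) {Z U X Z' U' X' : Var k} (a : Mo Z X) (j : Mo U X) (a' : Mo Z' X')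
    (j' : Mo U' X') (r : Mo Z' Z) (s : Mo U' U) (q : Mo X' X), Comp a j → Comp a' j' → q.Bun →
    Ca r a' a q → Ca s j' j q → ∀ u : T.H i (n + 1) U, T.V r (T.B a j u) = T.B a' j' (T.V s u)
  zero : ∀ (i n : ℕ) {Y X : Var k} (q : Mo Y X) (s : Mo X Y), q.Line → s.Cl → s.g ≫ q.g = 𝟙 X.X →
    ∀ m : T.H i n X, T.P s m = 0

/-- The finite flat morphism `f` has degree `D`: the push-forward of the pull-back is the
multiplication by `D`, and the pull-back of the class of a point `x` is the class of a cycle of degree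
`D` on the fibre over `x`. -/
def Th.Deg {V U : Var k} (f : Mo V U) (D : ℕ) : Prop :=
  (∀ (i n : ℕ) (m : T.H i n U), T.P f (T.R f m) = (D : E) • m) ∧
  ∀ (i : ℕ) (x : Ps i U), ∃ z : Ps i V →₀ E, T.C z = T.R f (T.cl i U x) ∧
    (∀ w, z w ≠ 0 → im f w.1 = x.1) ∧ z.sum (fun w e => e * (deg f w.1 : E)) = D

/-- The pull-back of the push-forward of a class is the sum of the class and its image under `s`. -/
def Th.Gal (i n : ℕ) {V U : Var k} (f : Mo V U) (s : Mo V V) : Prop :=
  ∀ m : T.H i n V, T.R f (T.P f m) = m + T.P s m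

/-- The pull-back along coverings. -/
structure Th.Cov : Prop where
  etale : ∀ {V U : Var k} (f : Mo V U), f.Et → IsIntegral U.X → ∃ D : ℕ, D ≠ 0 ∧ T.Deg f D
  dbl : ∀ (A : Type) [CommRing A] [Algebra k A] [Algebra.FiniteType k A] (b c : A),
    T.Deg (dm k A b c) 2
  inv : ∀ (i n : ℕ) (A : Type) [CommRing A] [Algebra k A] [Algebra.FiniteType k A] (b c : A)
    (s : Mo (sdbl k A b c) (sdbl k A b c)), Inv k A b c s → T.Gal i n (dm k A b c) s

/-- The published properties of l-adic homology which are used. -/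
structure Th.Pub : Prop where
  push : T.Push
  loc : T.Loc
  van : T.Van
  frob : T.Frob
  cyc : T.Cyc
  bundles : T.Bundles
  cov : T.Cov

/-- The theorem of Deligne: `H_(2i+1)(Ybar, Q_l(i))` is pure of weight `-1` for smooth proper `Y`. -/
def Th.Purity : Prop :=
  ∀ (i : ℕ) (Y : Var k) (d : ℕ), SP Y d → ∀ m : T.H i (2 * i + 1) Y, T.F m = m → m = 0

/-- The results in characteristic different from two. -/
structure Th.Quadrics : Prop where
  /-- the conjecture of Tate in dimension at most `d` is equivalent to the conjecture for `d + 2`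
  quadratic forms in an odd number of variables -/
  odd : ∀ d : ℕ, T.Low d ↔ OddS T.Tate (d + 1)
  oddP : ∀ d : ℕ, T.Low d ↔ OddSP T.Tate (d + 1)
  /-- it is equivalent to the conjecture for cubic hypersurfaces -/
  cubic : ∀ d : ℕ, T.Low d ↔ CubS T.Tate (d + 1)
  /-- an even number of variables corresponds to double covers of the affine space -/
  even : ∀ d : ℕ, T.Low d → (EvenS T.Tate (d + 1) ↔ DblS T.Tate (d + 1))
  /-- all systems of quadratic forms -/
  all : ∀ d : ℕ, T.Low d ∧ DblS T.Tate (d + 1) ↔ AllS T.Tate (d + 1)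
  allP : ∀ d : ℕ, T.Low d ∧ DblS T.Tate (d + 1) ↔ AllSP T.Tate (d + 1)
  /-- one system in an even number of variables and its discriminant double cover -/
  dis : ∀ d : ℕ, T.Low d → ∀ (n m : ℕ) (f : Fin (d + 1 + 1) → MvPolynomial (Fin (n + 1)) k),
    T.DisT d m f
  /-- three quadratic forms and double planes -/
  disQ : ∀ (n m : ℕ) (f : Fin (1 + 1 + 1) → MvPolynomial (Fin (n + 1)) k), T.DisQ m f
  three : DblS T.Tate 2 ↔ AllS T.Q1 2
  threeP : DblS T.Tate 2 ↔ AllSP T.Q1 2

/-- The main results for a homology theory. -/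
structure Th.Main : Prop where
  /-- the conjecture holds for `d = 1` -/
  one : ∀ X : Var k, Member k 1 X → T.Q1 X
  /-- the conjecture of Tate extends from dimension at most `d` to the class -/
  tate : ∀ d : ℕ, T.Low d ↔ ∀ X : Var k, Member k d X → T.Tate X
  /-- affine cones -/
  cone : ∀ (A : Type) [CommRing A] [Algebra k A] [Algebra.FiniteType k A] (n : ℕ) (ι : Type)
    (f : ι → MvPolynomial (Fin (n + 1)) A), T.Cone A f
  quadrics : (2 : k) ≠ 0 → T.Quadrics

/-- The main results with alterations. -/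
structure Th.Main2 : Prop where
  tate : ∀ d : ℕ, (∀ (Y : Var k) (D : ℕ), D ≤ d → SP Y D → T.Tate Y) ↔ T.Low d
  two : T.Surf ↔ ∀ X : Var k, Member k 2 X → T.Q1 X
  odd : (2 : k) ≠ 0 → (T.Surf ↔ OddS T.Q1 3)
  oddP : (2 : k) ≠ 0 → (T.Surf ↔ OddSP T.Q1 3)
  cubic : (2 : k) ≠ 0 → (T.Surf ↔ CubS T.Q1 3)
  all : T.Purity → ∀ d : ℕ, (∀ (Y : Var k) (D : ℕ), D ≤ d → SP Y D → T.Q1 Y) ↔
    ∀ X : Var k, Member k d X → T.Q1 X

/-- The conjectures of Tate for `X` and for `Y` are equivalent. -/
def Th.EqT (X Y : Var k) : Prop := T.Tate X ↔ T.Tate Y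

/-- The conjecture of Tate for `X` is equivalent to the generalised Beilinson conjecture for `Y`. -/
def Th.EqQ (X Y : Var k) : Prop := T.Tate X ↔ T.Q1 Y

end Theory

/-- The property `R` holds for the affine and for the projective zero set of the system `f`, and for the
affine and for the projective cubic hypersurface `t_0 f_0(x) + ... + t_q f_q(x) = 0`. -/
def Four (R : Var k → Prop) {n q : ℕ} (f : Fin (q + 1) → MvPolynomial (Fin (n + 1)) k) : Prop :=
  R (szer k k f) ∧ (∀ Y : Var k, PSub k f Y → R Y) ∧ R (szer k k fun _ : Fin 1 => cub f) ∧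
    ∀ Y : Var k, PSub k (n := n + 1 + q) (fun _ : Fin 1 => cub f) Y → R Y

/-- For the integral variety `X` of dimension at most `d + 1` there is a system `f` of `d + 3` quadratic
forms in an odd number of variables with nondegenerate generic linear combination, such that (if the
conjecture of Tate holds in dimension at most `d`) the conjectures of Tate for `X` and for each of the
varieties in `Four` are equivalent; if `d ≤ 1`, the conjecture of Tate for `X` is equivalent to the
generalised Beilinson conjecture for each of them. -/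
def Each (k : Type) [Field k] (d : ℕ) (X : Var k) : Prop :=
  IsIntegral X.X → DimLE X (d + 1 : ℕ) →
    ∃ (n : ℕ) (f : Fin (d + 1 + 1 + 1) → MvPolynomial (Fin (n + 1)) k),
      Odd (n + 1) ∧ Quad f ∧ NdS f ∧
        ∀ (E : Type) [Field E] [CharZero E] (T : Th.{v} k E), T.Pub →
          (T.Low d → Four (T.EqT X) f) ∧ (d ≤ 1 → Four (T.EqQ X) f)

end UQ
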