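import Pool.Agent.QCV.E_ASM
import Pool.Agent.UQ.Defs

/-!
# UQ: comparison of the language of the final statement with the one of the proofs, geometry
-/

set_option autoImplicit false

open CategoryTheory AlgebraicGeometry Polynomial

namespace UQ

open Pool.Agent.Lib_helper55.Beil (Var ClosedIn OpenIn Complementary)
open CUB (PrMor VIso)

variable {k : Type} [Field k]

/-! ## Morphisms -/

/-- A closed immersion. -/
def toCl {Z X : Var k} (a : Mo Z X) (h : a.Cl) : ClosedIn Z X := ⟨a.g, a.comm, h⟩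

/-- An open immersion. -/
def toOp {U X : Var k} (j : Mo U X) (h : j.Op) : OpenIn U X := ⟨j.g, j.comm, h⟩

/-- A proper morphism. -/
def toPr {X Y : Var k} (f : Mo X Y) (h : f.Pr) : PrMor X Y := ⟨f.g, f.comm, h⟩

/-- A finite etale covering. -/
def toEt {V U : Var k} (f : Mo V U) (h : f.Et) : Pool.Agent.Lib_helper66.OneP.FinEt V U :=
  ⟨f.g, f.comm, h.1, h.2.1, h.2.2⟩

/-- A closed immersion. -/
def ofCl {Z X : Var k} (a : ClosedIn Z X) : Mo Z X := ⟨a.g, a.comm⟩

/-- An open immersion. -/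
def ofOp {U X : Var k} (j : OpenIn U X) : Mo U X := ⟨j.g, j.comm⟩

/-- A proper morphism. -/
def ofPr {X Y : Var k} (f : PrMor X Y) : Mo X Y := ⟨f.g, f.comm⟩

/-- A finite etale covering. -/
def ofEt {V U : Var k} (f : Pool.Agent.Lib_helper66.OneP.FinEt V U) : Mo V U := ⟨f.g, f.comm⟩

/-- A product with the affine line. -/
def ofLine {Y X : Var k} (L : CUB.Line Y X) : Mo Y X := ⟨L.q, L.comm⟩

/-- A line bundle. -/
def ofBun {Y X : Var k} (B : QCV.Bun Y X) : Mo Y X := ⟨B.q, B.comm⟩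

/-- An isomorphism. -/
def ofIso {X Y : Var k} (s : VIso X Y) : Mo X Y := ⟨s.e.hom, s.comm⟩

lemma cl_ofCl {Z X : Var k} (a : ClosedIn Z X) : (ofCl a).Cl := a.closed

lemma op_ofOp {U X : Var k} (j : OpenIn U X) : (ofOp j).Op := j.isOpen

lemma pr_ofPr {X Y : Var k} (f : PrMor X Y) : (ofPr f).Pr := f.proper

lemma et_ofEt {V U : Var k} (f : Pool.Agent.Lib_helper66.OneP.FinEt V U) : (ofEt f).Et :=
  ⟨f.fin, f.etale, f.surj⟩

lemma pr_of_cl {Z X : Var k} {a : Mo Z X} (h : a.Cl) : a.Pr := by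
  have h' : IsClosedImmersion a.g := h
  exact (inferInstance : IsProper a.g)

lemma pr_of_et {Z X : Var k} {a : Mo Z X} (h : a.Et) : a.Pr := by
  have h' : IsFinite a.g := h.1
  exact (inferInstance : IsProper a.g)

lemma line_ofLine {Y X : Var k} (L : CUB.Line Y X) : (ofLine L).Line := ⟨L.t, L.prod⟩

lemma line_exists {Y X : Var k} (q : Mo Y X) (h : q.Line) : ∃ L : CUB.Line Y X, L.q = q.g := by
  obtain ⟨t, ht⟩ := h
  exact ⟨⟨q.g, t, q.comm, ht⟩, rfl⟩

lemma bun_ofBun {Y X : Var k} (B : QCV.Bun Y X) : (ofBun B).Bun := by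
  intro x
  obtain ⟨W, V, L, l, j, h1, h2⟩ := B.loc x
  exact ⟨W, V, ofLine L, ofOp l, ofOp j, line_ofLine L, op_ofOp l, op_ofOp j, h1, h2⟩

lemma bun_exists {Y X : Var k} (q : Mo Y X) (h : q.Bun) : ∃ B : QCV.Bun Y X, B.q = q.g := by
  refine ⟨⟨q.g, q.comm, fun x => ?_⟩, rfl⟩
  obtain ⟨W, V, L, l, j, h1, h2, h3, h4, h5⟩ := h x
  obtain ⟨L', hL'⟩ := line_exists L h1
  refine ⟨W, V, L', toOp l h2, toOp j h3, ?_, h5⟩
  rw [hL']
  exact h4

lemma bun_of_line {Y X : Var k} {q : Mo Y X} (h : q.Line) : q.Bun := by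
  intro x
  refine ⟨Y, X, q, ⟨𝟙 Y.X, Category.id_comp _⟩, ⟨𝟙 X.X, Category.id_comp _⟩, h, ?_, ?_, ?_, x, rfl⟩
  · exact (inferInstance : IsOpenImmersion (𝟙 Y.X))
  · exact (inferInstance : IsOpenImmersion (𝟙 X.X))
  · exact IsPullback.of_vert_isIso ⟨by change q.g ≫ 𝟙 _ = 𝟙 _ ≫ q.g; simp⟩

lemma comp_of {Z U X : Var k} {a : ClosedIn Z X} {j : OpenIn U X} (h : Complementary a j) :
    Comp (ofCl a) (ofOp j) := by
  refine ⟨a.closed, j.isOpen, fun x => ?_⟩
  have h1 : x ∈ Set.range a.g ↔ x ∈ (Set.range j.g)ᶜ := by rw [h]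
  exact h1

lemma comp_to {Z U X : Var k} {a : Mo Z X} {j : Mo U X} (h : Comp a j) :
    Complementary (toCl a h.1) (toOp j h.2.1) := by
  ext x
  exact h.2.2 x

lemma sp_smoothProper {Y : Var k} {d : ℕ} : SP Y d ↔ Y.SmoothProper d := Iff.rfl

lemma dimLE_iff {X : Var k} {n : ℕ} : DimLE X n ↔ X.DimLE n := Iff.rfl

/-! ## The class -/

lemma dpoly_eq {A : Type} [CommRing A] (b c : A) : QCV.dpoly b c = dp b c := rfl

lemma cone_eq {A : Type} [CommRing A] [Algebra k A] [Algebra.FiniteType k A] {n : ℕ}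
    (a : Fin n → A) :
    cone k A a = CUB.aff k (MvPolynomial (Fin n) A ⧸ Ideal.span {QCV.dia a}) := by
  have h : Set.range (fun _ : Fin 1 => QCV.dia a) = {QCV.dia a} := Set.range_const
  exact congrArg (fun S : Set (MvPolynomial (Fin n) A) =>
    CUB.aff k (MvPolynomial (Fin n) A ⧸ Ideal.span S)) h

lemma adj_iso {A : Type} [CommRing A] [Algebra k A] {p q : A[X]} (h : p = q) :
    Nonempty (AdjoinRoot p ≃ₐ[k] AdjoinRoot q) := by
  subst h
  exact ⟨AlgEquiv.refl⟩

lemma as_eq {A : Type} [CommRing A] {m : ℕ} (f : Fin m → A) :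
    CUB.asPoly (CUB.lin f) = dp (-1) (-∑ j, MvPolynomial.X j * MvPolynomial.C (f j)) := by
  unfold CUB.asPoly dp
  rw [map_neg, map_neg, map_one]
  change X ^ 2 - X - C (∑ j, MvPolynomial.X j * MvPolynomial.C (f j)) = _
  ring

lemma sas_iso {A : Type} [CommRing A] [Algebra k A] [Algebra.FiniteType k A] {m : ℕ}
    (f : Fin m → A) : Nonempty (VIso (CUB.aff k (CUB.VR A f)) (sas k A f)) := by
  obtain ⟨e⟩ := adj_iso (k := k) (as_eq f)
  exact ⟨@CUB.viso k _ _ _ _ _ _ _ (ft_dp k _ _) _ e.symm⟩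

/-- The members in the language of the proofs are members. -/
theorem member_of {d : ℕ} {X : Var k} (h : QCV.Member k d X) : Member k d X := by
  induction h with
  | small X hX => exact .small X hX
  | @iso X Y s _ ih => exact .iso (ofIso s) (inferInstance : IsIso s.e.hom) ih
  | nil a hs _ ih => exact .nil (ofCl a) a.closed hs ih
  | paste a j hc _ _ ihZ ihU => exact .paste (ofCl a) (ofOp j) (comp_of hc) ihZ ihU
  | cut a j hc _ _ ihX ihZ => exact .cut (ofCl a) (ofOp j) (comp_of hc) ihX ihZ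
  | line A _ ih => exact .line A ih
  | unline L _ ih => exact .unline (ofLine L) (line_ofLine L) ih
  | cover A b c _ ih => exact .cover A b c ih
  | etale f hint _ ih => exact .etale (ofEt f) (et_ofEt f) hint ih
  | bundle B s j hs hc _ ih => exact .bundle (ofBun B) (ofCl s) (ofOp j) (bun_ofBun B) hs (comp_of hc) ih
  | odd A m a ha _ ih =>
    rw [← cone_eq]
    exact .odd A m a ha ih
  | even A m a h2 ha _ ih =>
    rw [← cone_eq]
    exact .even A m a h2 ha ih
  | zeros A m f _ ih =>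
    obtain ⟨s⟩ := sas_iso (k := k) f
    exact .zeros A m f (.iso (ofIso s) (inferInstance : IsIso s.e.hom) ih)

lemma viso_of {X Y : Var k} (f : Mo X Y) (h : IsIso f.g) : Nonempty (VIso X Y) :=
  ⟨⟨asIso f.g, f.comm⟩⟩

/-- The members are members in the language of the proofs. -/
theorem member_to {d : ℕ} {X : Var k} (h : Member k d X) : QCV.Member k d X := by
  induction h with
  | small X hX => exact .small X hX
  | iso f hf _ ih =>
    obtain ⟨s⟩ := viso_of f hf
    exact .iso s ih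
  | nil a ha hs _ ih => exact .nil (toCl a ha) hs ih
  | paste a j hc _ _ ihZ ihU => exact .paste (toCl a hc.1) (toOp j hc.2.1) (comp_to hc) ihZ ihU
  | cut a j hc _ _ ihX ihZ => exact .cut (toCl a hc.1) (toOp j hc.2.1) (comp_to hc) ihX ihZ
  | line A _ ih => exact .line A ih
  | unline q hq _ ih =>
    obtain ⟨L, -⟩ := line_exists q hq
    exact .unline L ih
  | cover A b c _ ih => exact .cover A b c ih
  | etale f hf hint _ ih => exact .etale (toEt f hf) hint ih
  | bundle q s j hq hs hc _ ih =>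
    obtain ⟨B, hB⟩ := bun_exists q hq
    refine .bundle B (toCl s hc.1) (toOp j hc.2.1) ?_ (comp_to hc) ih
    rw [hB]
    exact hs
  | odd A m a ha _ ih =>
    rw [cone_eq]
    exact .odd A m a ha ih
  | even A m a h2 ha _ ih =>
    rw [cone_eq]
    exact .even A m a h2 ha ih
  | zeros A m f _ ih =>
    obtain ⟨s⟩ := sas_iso (k := k) f
    exact .zeros A m f (.iso ⟨s.e.symm, by rw [← s.comm]; exact s.e.inv_hom_id_assoc _⟩ ih)

theorem member_iff {d : ℕ} {X : Var k} : Member k d X ↔ QCV.Member k d X :=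
  ⟨member_to, member_of⟩

/-! ## Projective varieties -/

lemma psub_iff {R : Type} [CommRing R] [Algebra k R] {n : ℕ} {ι : Type}
    (f : ι → MvPolynomial (Fin (n + 1)) R) (X : Var k) :
    PSub k f X ↔ Nonempty (QCV.ProjSub f X) := by
  constructor
  · rintro ⟨g, h1, h2, h3⟩
    exact ⟨⟨g, h1, h2, h3⟩⟩
  · rintro ⟨⟨g, h1, h2, h3⟩⟩
    exact ⟨g, h1, h2, h3⟩

end UQ

namespace UQ

open Pool.Agent.Lib_helper55.Beil (Var ClosedIn OpenIn Complementary)
open CUB (PrMor VIso)

variable {k : Type} [Field k]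

lemma both_of {d : ℕ} {A : Type} [CommRing A] [Algebra k A] [Algebra.FiniteType k A] {n : ℕ}
    {ι : Type} (f : ι → MvPolynomial (Fin (n + 1)) A)
    (h1 : QCV.Member k d (CUB.aff k (MvPolynomial (Fin (n + 1)) A ⧸ Ideal.span (Set.range f))))
    (h2 : ∀ X : Var k, Nonempty (QCV.ProjSub f X) → QCV.Member k d X) : Both k d A f :=
  ⟨member_of h1, fun X hX => member_of (h2 X ((psub_iff f X).mp hX))⟩

lemma num_to {d r e : ℕ} {A : Type} [CommRing A] [Algebra k A] [Algebra.FiniteType k A]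
    (h : Num k d A r e) : e ≤ d ∧ r + e ≤ d + 1 ∧ (CUB.aff k A).DimLE e := h

/-- The members of the class. -/
theorem members (k : Type) [Field k] (d : ℕ) : Members k d where
  equations A _ _ _ n r s e f hN h1 h2 :=
    member_of (QCV.equations k d A n r s e f hN.1 hN.2.1 hN.2.2 h1 h2)
  forms A _ _ _ n r s e a f m ha hr hA hf hm h1 h2 X hX :=
    member_of (QCV.forms k d A n r s e a f m ha hr hA hf hm h1 h2 X ((psub_iff f X).mp hX))
  uniruled A _ _ _ X hint hX h := by
    obtain ⟨U, V, j, p, o, h1, h2, h3, h4, h5, h6⟩ := h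
    have hX' : X.DimLE (d + 1 : ℕ) := hX
    have hU : QCV.SepUniruled d X := by
      let j' : OpenIn U X := toOp j h1
      let p' : Pool.Agent.Lib_helper66.OneP.FinEt V U := toEt p h2
      let o' : OpenIn V (CUB.aff k A[X]) := toOp o h3
      exact ⟨U, V, A, inferInstance, inferInstance, inferInstance, j', p', o', h4, h5, h6⟩
    exact member_of (QCV.uniruled k d X hint hX' hU)
  oddForms h2 A _ _ _ n q e f hN hf ho :=
    both_of f (QCV.oddForms k h2 d A (n + 1) q e f hN.1 hN.2.1 hN.2.2 hf ho)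
      (QCV.oddFormsProj k h2 d A n q e f hN.1 hN.2.1 hN.2.2 hf ho)
  evenForms h2 A _ _ _ n m q e f hA hn hN hf hd hM := by
    have hM' := member_to hM
    exact both_of f (QCV.evenForms h2 d A (n + 1) m q e f hn hN.1 hN.2.1 hN.2.2 hf hd hM')
      (QCV.evenFormsProj h2 d A n m q e f hn hN.1 hN.2.1 hN.2.2 hf hd hM')
  oddBase h2 A _ _ _ n f hA hdA hM hf ho := by
    have h := QCV.oddBase k h2 d A hdA (member_to hM)
    exact both_of _ (h.1 (n + 1) f hf ho) (h.2 n f hf ho)
  evenBase h2 A _ _ _ n m f hA hdA hn hf hd hM := by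
    have h := QCV.evenBase h2 d A hdA
    exact both_of _ (h.1 (n + 1) m f hn hf hd (member_to hM)) (h.2 n m f hn hf hd (member_to hM))
  cubicsA _ h2 hd n f hn hf := member_of ((QCV.cubics k h2 hd).1 n f hn hf)
  cubicsP _ h2 hd n f hn hf X hX :=
    member_of ((QCV.cubics k h2 hd).2 n f hn hf X ((psub_iff _ X).mp hX))

end UQ
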